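import Pool.Statements.S01007
import Pool.Agent.Lib.MP_28a49a_al.Main

set_option autoImplicit false
open Pool Pool.MP_28a49a_al

namespace Pool.Agent.S01007

/-- Some hyperbolic group (finitely generated, word metric satisfies a Gromov four-point condition) contains a finitely presented subgroup whose Dehn function is bounded below by an exponential, up to the usual equivalence. -/
theorem result :
    ∃ (G : Type) (_ : Group G),
      (∃ (β : Type) (_ : Finite β) (s : β → G),
        Function.Surjective (FreeGroup.lift s) ∧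
        ∃ (d : G → G → ℕ),
          (∀ x y : G, d x y = sInf {k : ℕ | ∃ l : List (β × Bool),
              l.length = k ∧ FreeGroup.lift s (FreeGroup.mk l) = x⁻¹ * y}) ∧
          ∃ δ : ℕ, ∀ x y z w : G,
            d x z + d y w ≤ max (d x y + d z w) (d x w + d y z) + 2 * δ) ∧
      ∃ (α : Type) (_ : Finite α) (φ : FreeGroup α →* G) (R : Finset (FreeGroup α)),
        φ.ker = Subgroup.normalClosure (R : Set (FreeGroup α)) ∧
        ∃ C : ℕ, ∀ n : ℕ, ∃ w : FreeGroup α, φ w = 1 ∧
          (∃ l : List (α × Bool), l.length ≤ C * n + C ∧ FreeGroup.mk l = w) ∧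
          ∀ L : List (FreeGroup α × FreeGroup α),
            (∀ p ∈ L, p.2 ∈ R ∨ p.2⁻¹ ∈ R) →
            (L.map (fun p => p.1 * p.2 * p.1⁻¹)).prod = w →
            2 ^ n ≤ C * L.length + C * n + C :=
  Pool.Agent.Lib.MP_28a49a_al.main

end Pool.Agent.S01007
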