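import Pool.Statements.S02422
import Pool.Agent.Lib.MP_987db6_al.Main

set_option autoImplicit false
open Pool Pool.MP_987db6_al

namespace Pool.Agent.S02422

/-- The negation of the preceding statement: For every finite group G, prime p and p-element x, there is a bijection between irreducible characters of G not vanishing at x and those of the subnormalizer Sub_G(x) not vanishing at x, preserving the p-part of the degree and the field Q(χ(x)). -/
theorem result :
    ¬ (∀ (G : Type) [Group G] [Finite G] (p : ℕ), p.Prime → ∀ x : G, (∃ k : ℕ, x ^ (p ^ k) = 1) →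
      ∀ y : ↥(Subgroup.closure {g : G | ∃ n : ℕ, ∃ c : ℕ → Subgroup G,
            c 0 = Subgroup.zpowers x ∧ c n = Subgroup.zpowers x ⊔ Subgroup.zpowers g ∧
            ∀ i < n, c i ≤ c (i + 1) ∧ ((c i).subgroupOf (c (i + 1))).Normal}),
        (y : G) = x →
        ∃ f : {χ : G → ℂ // (∃ V : FDRep ℂ G, CategoryTheory.Simple V ∧ V.character = χ) ∧ χ x ≠ 0} ≃
            {ψ : ↥(Subgroup.closure {g : G | ∃ n : ℕ, ∃ c : ℕ → Subgroup G,
                c 0 = Subgroup.zpowers x ∧ c n = Subgroup.zpowers x ⊔ Subgroup.zpowers g ∧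
                ∀ i < n, c i ≤ c (i + 1) ∧ ((c i).subgroupOf (c (i + 1))).Normal}) → ℂ //
              (∃ W : FDRep ℂ ↥(Subgroup.closure {g : G | ∃ n : ℕ, ∃ c : ℕ → Subgroup G,
                c 0 = Subgroup.zpowers x ∧ c n = Subgroup.zpowers x ⊔ Subgroup.zpowers g ∧
                ∀ i < n, c i ≤ c (i + 1) ∧ ((c i).subgroupOf (c (i + 1))).Normal}),
                  CategoryTheory.Simple W ∧ W.character = ψ) ∧ ψ y ≠ 0},
          ∀ χ, (∀ n m : ℕ, χ.1 1 = (n : ℂ) → (f χ).1 1 = (m : ℂ) →
                  padicValNat p n = padicValNat p m) ∧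
               IntermediateField.adjoin ℚ ({χ.1 x} : Set ℂ) =
                 IntermediateField.adjoin ℚ ({(f χ).1 y} : Set ℂ)) := by
  intro h
  have h1 := h _ 2 Nat.prime_two Pool.Agent.Lib.MP_987db6_al.xx
    ⟨2, Pool.Agent.Lib.MP_987db6_al.xx_pow⟩
  exact Pool.Agent.Lib.MP_987db6_al.no_bij _
    (by rw [Pool.Agent.Lib.MP_987db6_al.dat_xx.set_eq, Subgroup.closure_eq])
    fun y hy => (h1 y hy).imp fun f hf χ => (hf χ).1

end Pool.Agent.S02422
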