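import Pool.Statements.S03172
import Pool.Agent.Lib.MP_d40034_al.Concrete

set_option autoImplicit false
open Pool Pool.MP_d40034_al

namespace Pool.Agent.S03172

/-- The negation of the preceding statement: There is a natural number n such that every finite 2-group G in which every proper subgroup needs fewer generators than G has derived length at most n. -/
theorem result :
    ¬ (∃ n : ℕ, ∀ (G : Type) [Group G] [Finite G], IsPGroup 2 G →
      (∀ H : Subgroup G, H ≠ ⊤ → Group.rank H < Group.rank G) →
      derivedSeries G n = ⊥) := by
  exact Pool.Agent.Lib.MP_d40034_al.main

end Pool.Agent.S03172
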