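import Pool.Statements.S03493
import Pool.Agent.Lib.MP_ef3722_al.Final

set_option autoImplicit false
open Pool Pool.MP_ef3722_al

namespace Pool.Agent.S03493

/-- For all n,m≥1, the products over j of the determinants det[x_r^{a} y_r^{b}] built from columns j, j+m, … of each m-Dyck path (a = area counts, b = arm/leg counts) generate the m-th power of the ideal of diagonally alternating polynomials. -/
theorem result :
  ∀ n m : ℕ, 1 ≤ n → 1 ≤ m →
    Ideal.span {F : MvPolynomial (Fin 2 × Fin n) ℂ | ∃ h : ℕ → ℕ,
        (∀ i i' : ℕ, i ≤ i' → i' < m * n → h i ≤ h i') ∧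
        (∀ i : ℕ, i < m * n → i + 1 ≤ m * h i ∧ h i ≤ n) ∧
        F = ∏ j : Fin m, Matrix.det (Matrix.of fun r s : Fin n =>
          (MvPolynomial.X (0, r) : MvPolynomial (Fin 2 × Fin n) ℂ) ^
              (h (j.val + m * s.val) - (j.val + m * s.val + m) / m) *
          (MvPolynomial.X (1, r) : MvPolynomial (Fin 2 × Fin n) ℂ) ^
            ((Finset.range n).filter (fun k : ℕ =>
              h (j.val + m * s.val) ≤ k ∧
              m * (k - h (j.val + m * s.val)) ≤
                ((Finset.range (m * n)).filter (fun i' : ℕ => h i' ≤ k)).card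
                  - (j.val + m * s.val + 1) ∧
              ((Finset.range (m * n)).filter (fun i' : ℕ => h i' ≤ k)).card
                  - (j.val + m * s.val + 1) ≤ m * (k - h (j.val + m * s.val) + 1))).card)} =
    (Ideal.span {f : MvPolynomial (Fin 2 × Fin n) ℂ | ∀ σ : Equiv.Perm (Fin n),
        MvPolynomial.rename (fun p : Fin 2 × Fin n => (p.1, σ p.2)) f =
          MvPolynomial.C (((Equiv.Perm.sign σ : ℤ) : ℂ)) * f}) ^ m := by
  intro n m _ hm
  exact Pool.Agent.Lib.MP_ef3722_al.JJ_eq (n := n) (m := m) hm

end Pool.Agent.S03493
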