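import Pool.Statements.S03540
import Pool.Agent.Lib.MP_f40e16_al.Label
import Pool.Agent.Lib.MP_f40e16_al.NotCE

set_option autoImplicit false
open Pool Pool.MP_f40e16_al

namespace Pool.Agent.S03540

/-- The negation of the preceding statement: If a finitely generated group G coarsely embeds into Hilbert space ℓ², then every group E that is a central extension of ℤ by G (ℤ central, quotient G) also coarsely embeds into ℓ². -/
theorem result :
    ¬ (∀ (G E : Type) [Group G] [Group E], Group.FG G →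
      (∃ f : G → lp (fun _ : ℕ => ℝ) 2,
        (∀ g : G, ∃ C : ℝ, ∀ x : G, ‖f (x * g) - f x‖ ≤ C) ∧
        (∀ R : ℝ, {g : G | ∃ x : G, ‖f (x * g) - f x‖ ≤ R}.Finite)) →
      ∀ (i : Multiplicative ℤ →* E) (π : E →* G),
        Function.Injective i → Function.Surjective π →
        i.range = π.ker → i.range ≤ Subgroup.center E →
        ∃ f : E → lp (fun _ : ℕ => ℝ) 2,
          (∀ g : E, ∃ C : ℝ, ∀ x : E, ‖f (x * g) - f x‖ ≤ C) ∧
          (∀ R : ℝ, {g : E | ∃ x : E, ‖f (x * g) - f x‖ ≤ R}.Finite)) := by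
  intro h
  obtain ⟨B, hB⟩ := Pool.Agent.Lib.MP_f40e16_al.exists_base
  obtain ⟨G, E, _, _, h1, -, h2, i, π, h3, h4, h5, h6, γ, h7⟩ :=
    Pool.Agent.Lib.MP_f40e16_al.exists_groups B
  exact Pool.Agent.Lib.MP_f40e16_al.not_ce i h3 h6 γ h7 1650 hB (h G E h1 h2 i π h3 h4 h5 h6)

end Pool.Agent.S03540
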