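import Pool.Statements.S03643
import Pool.Agent.Lib.MP_fe96bf_al.Main

set_option autoImplicit false
open Pool Pool.MP_fe96bf_al

namespace Pool.Agent.S03643

/-- For every nonempty set of primes π and finite π-soluble group G, if a Hall π-subgroup has derived length ≤ d, then G has a normal series with factors alternating π′,π,…,π′ using only d π-factors, i.e. the π-length of G is at most d. -/
theorem result :
    ∀ (π : Set ℕ), π.Nonempty → (∀ p ∈ π, p.Prime) →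
    ∀ (G : Type) [Group G] [Finite G],
      (∃ m : ℕ, ∃ S : ℕ → Subgroup G, S 0 = ⊥ ∧ S m = ⊤ ∧ (∀ i, S i ≤ S (i + 1)) ∧
        (∀ i, (S i).Normal) ∧
        ∀ i < m,
          (∀ p : ℕ, p.Prime → p ∣ Nat.card ↥(S (i + 1)) / Nat.card ↥(S i) → p ∉ π) ∨
          (∃ q ∈ π, ∀ p : ℕ, p.Prime →
            p ∣ Nat.card ↥(S (i + 1)) / Nat.card ↥(S i) → p = q)) →
      ∀ H : Subgroup G,
        (∀ p : ℕ, p.Prime → p ∣ Nat.card ↥H → p ∈ π) →
        (∀ p : ℕ, p.Prime → p ∣ H.index → p ∉ π) →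
        ∀ d : ℕ, derivedSeries (↥H) d = ⊥ →
          ∃ T : ℕ → Subgroup G, T 0 = ⊥ ∧ T (2 * d + 1) = ⊤ ∧
            (∀ i, T i ≤ T (i + 1)) ∧ (∀ i, (T i).Normal) ∧
            (∀ i ≤ d, ∀ p : ℕ, p.Prime →
              p ∣ Nat.card ↥(T (2 * i + 1)) / Nat.card ↥(T (2 * i)) → p ∉ π) ∧
            (∀ i < d, ∀ p : ℕ, p.Prime →
              p ∣ Nat.card ↥(T (2 * i + 2)) / Nat.card ↥(T (2 * i + 1)) → p ∈ π) := by
  intro π _ hπ G _ _ hS H hH hi d hd
  open Pool.Agent.Lib.MP_fe96bf_al in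
  have hG : Sol π G := by
    obtain ⟨m, S, h0, hm, hle, hN, hS⟩ := hS
    refine ⟨m, S, h0, hm, hN, fun i hi => ?_⟩
    have := hN i
    have hne : (S i).relIndex (S (i + 1)) ≠ 0 :=
      ((S i).subgroupOf (S (i + 1))).index_ne_zero_of_finite
    have := hS i hi
    rw [card_div_eq (hle i)] at this
    rcases this with h | ⟨q, hq, h⟩
    · exact Or.inl (sec_iff_relIndex.mpr ⟨hne, h⟩)
    · exact Or.inr ⟨q, hq, hπ q hq, sec_iff_relIndex.mpr ⟨hne, h⟩⟩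
  open Pool.Agent.Lib.MP_fe96bf_al in
  have hD : DL π d G := dl_of_hall hG (sec_bot_iff_card.mpr ⟨Nat.card_pos.ne', hH⟩)
    ⟨H.index_ne_zero_of_finite, hi⟩ (by rw [dser_eq_map, hd, Subgroup.map_bot])
  open Pool.Agent.Lib.MP_fe96bf_al in
  obtain ⟨T, t0, t1, t2, t3, t4, t5⟩ := Len.series ⊥ (main_DL d G hG hD)
  refine ⟨T, t0, t1 _ le_rfl, t2, t3, fun i hi => ?_, fun i hi => ?_⟩
  · have := t3 (2 * i)
    rw [Pool.Agent.Lib.MP_fe96bf_al.card_div_eq (t2 _)]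
    exact (Pool.Agent.Lib.MP_fe96bf_al.sec_iff_relIndex.mp (t4 i hi)).2
  · have := t3 (2 * i + 1)
    rw [Pool.Agent.Lib.MP_fe96bf_al.card_div_eq (t2 _)]
    exact (Pool.Agent.Lib.MP_fe96bf_al.sec_iff_relIndex.mp (t5 i hi)).2

end Pool.Agent.S03643
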