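import Pool.Statements.S04232
import Pool.Agent.Lib.MP_2f16e6_an.Exists
import Pool.Agent.Lib.MP_2f16e6_an.Final

set_option autoImplicit false
open Pool Pool.MP_2f16e6_an

namespace Pool.Agent.S04232

/-- The negation of the preceding statement: Every separable infinite-dimensional real Banach space X that is isomorphic to each separable Banach space Y mutually finitely crudely representable with it is isomorphic to ℓ₂. -/
theorem result :
    ¬ (∀ (X : Type) [NormedAddCommGroup X] [NormedSpace ℝ X] [CompleteSpace X]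
      [TopologicalSpace.SeparableSpace X],
      ¬ FiniteDimensional ℝ X →
      (∀ (Y : Type) [NormedAddCommGroup Y] [NormedSpace ℝ Y] [CompleteSpace Y]
          [TopologicalSpace.SeparableSpace Y],
          (∃ K : ℝ, 1 ≤ K ∧ ∀ E : Submodule ℝ Y, FiniteDimensional ℝ E →
              ∃ T : E →ₗ[ℝ] X, ∃ c : ℝ, 0 < c ∧
                ∀ y : E, c * ‖y‖ ≤ ‖T y‖ ∧ ‖T y‖ ≤ K * c * ‖y‖) →
          (∃ K : ℝ, 1 ≤ K ∧ ∀ E : Submodule ℝ X, FiniteDimensional ℝ E →
              ∃ T : E →ₗ[ℝ] Y, ∃ c : ℝ, 0 < c ∧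
                ∀ x : E, c * ‖x‖ ≤ ‖T x‖ ∧ ‖T x‖ ≤ K * c * ‖x‖) →
          Nonempty (Y ≃L[ℝ] X)) →
      Nonempty (X ≃L[ℝ] lp (fun _ : ℕ => ℝ) 2)) := by
  obtain ⟨R⟩ := Pool.Agent.JLS.exists_rigid
  intro h
  exact R.not_l2 (h R.X R.not_finiteDimensional fun Y _ _ _ _ h1 h2 => R.propD Y h1 h2)

end Pool.Agent.S04232
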