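import Pool.Statements.S04493
import Pool.Agent.Lib.MP_42e615_an.Main

set_option autoImplicit false
open Pool Pool.MP_42e615_an

namespace Pool.Agent.S04493

/-- For ω>0 and nonzero integer r, with L the set of (B,A) where φ'=−sin φ+B+A cos ωt has rotation number r, the boundary points on B=ωr that are not constrictions have a top ordinate a, and L meets that line in A≥0 exactly for A≥a. -/
theorem result :
    ∀ ω : ℝ, 0 < ω → ∀ r : ℤ, r ≠ 0 →
      ∀ L : Set (ℝ × ℝ),
        L = {p : ℝ × ℝ | ∃ φ : ℝ → ℝ,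
              (∀ t : ℝ, HasDerivAt φ (-Real.sin (φ t) + p.1 + p.2 * Real.cos (ω * t)) t) ∧
              Filter.Tendsto (fun t : ℝ => φ t / (ω * t)) Filter.atTop (nhds (r : ℝ))} →
        ∃ a : ℝ,
          IsGreatest {A : ℝ | (ω * (r : ℝ), A) ∈ frontier L ∧
              ¬ (A ≠ 0 ∧ {p ∈ L | p.2 = A} = {(ω * (r : ℝ), A)})} a ∧
          {A : ℝ | 0 ≤ A ∧ (ω * (r : ℝ), A) ∈ L} = Set.Ici a := by
  intro ω hω r hr L hL
  subst hL
  exact Pool.Agent.Lib.MP_42e615_an.concl hω hr

end Pool.Agent.S04493
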