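import Pool.Statements.S04592
import Pool.Agent.Lib.MP_4b13b5_an.Main

set_option autoImplicit false
open Matrix
open Pool Pool.MP_4b13b5_an

namespace Pool.Agent.S04592

/-- The negation of the preceding statement: For every n, the set of real vectors a such that z^n+a_1z^(n-1)+...+a_n has all roots in the open unit disk, and the same holds for R(I+R)^(-1)a for every positive definite symmetric Toeplitz R, is convex. -/
theorem result :
    ¬ (∀ n : ℕ, Convex ℝ {a : Fin n → ℝ |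
      (∀ z : ℂ, 1 ≤ ‖z‖ → z ^ n + ∑ j : Fin n, ((a j : ℝ) : ℂ) * z ^ (n - (j.val + 1)) ≠ 0) ∧
      ∀ R : Matrix (Fin n) (Fin n) ℝ, R.PosDef →
        (∃ r : ℕ → ℝ, ∀ i j : Fin n, R i j = r (Int.natAbs ((i.val : ℤ) - (j.val : ℤ)))) →
        ∀ z : ℂ, 1 ≤ ‖z‖ →
          z ^ n + ∑ j : Fin n, ((((R * (1 + R)⁻¹) *ᵥ a) j : ℝ) : ℂ) * z ^ (n - (j.val + 1)) ≠ 0}) := by
  intro h
  have ha := h 4 (x := ![-516 / 1000, -260 / 1000, 260 / 1000, 516 / 1000]) ?_
    (y := ![214 / 1000, 58 / 1000, 286 / 1000, 810 / 1000]) ?_ (a := 1 / 2) (b := 1 / 2)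
    (by norm_num) (by norm_num) (by norm_num)
  · obtain ⟨z, hz, hz0⟩ := Lib.MP_4b13b5_an.mid_root
    have hm : (1 / 2 : ℝ) • (![-516 / 1000, -260 / 1000, 260 / 1000, 516 / 1000] : Fin 4 → ℝ)
        + (1 / 2 : ℝ) • (![214 / 1000, 58 / 1000, 286 / 1000, 810 / 1000] : Fin 4 → ℝ)
        = ![-151 / 1000, -101 / 1000, 273 / 1000, 663 / 1000] := by
      funext i
      fin_cases i <;> simp <;> norm_num
    rw [hm] at ha
    apply ha.2 Lib.MP_4b13b5_an.R0 Lib.MP_4b13b5_an.R0_posDef ⟨Lib.MP_4b13b5_an.rr, fun _ _ => rfl⟩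
      z hz
    rw [Lib.MP_4b13b5_an.mid_image, Lib.MP_4b13b5_an.sum_four]
    exact hz0
  · refine ⟨fun z hz => ?_, fun R hR hT z hz => ?_⟩
    · rw [Lib.MP_4b13b5_an.sum_four]
      apply Lib.MP_4b13b5_an.stable_a _ _ _ _ _ _ z hz <;> simp <;> norm_num
    · rw [Lib.MP_4b13b5_an.sum_four]
      have hd := Lib.MP_4b13b5_an.discs R hR hT ![-516 / 1000, -260 / 1000, 260 / 1000, 516 / 1000]
      apply Lib.MP_4b13b5_an.stable_a _ _ _ _ _ _ z hz
      · convert hd.1 using 3 <;> simp <;> norm_num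
      · convert hd.2 using 3 <;> simp <;> norm_num
  · refine ⟨fun z hz => ?_, fun R hR hT z hz => ?_⟩
    · rw [Lib.MP_4b13b5_an.sum_four]
      apply Lib.MP_4b13b5_an.stable_b _ _ _ _ _ _ z hz <;> simp <;> norm_num
    · rw [Lib.MP_4b13b5_an.sum_four]
      have hd := Lib.MP_4b13b5_an.discs R hR hT ![214 / 1000, 58 / 1000, 286 / 1000, 810 / 1000]
      apply Lib.MP_4b13b5_an.stable_b _ _ _ _ _ _ z hz
      · convert hd.1 using 3 <;> simp <;> norm_num
      · convert hd.2 using 3 <;> simp <;> norm_num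

end Pool.Agent.S04592
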