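import Pool.Statements.S05776
import Pool.Agent.Lib.MP_ab96c2_an.Estimates

set_option autoImplicit false
open Pool Pool.MP_ab96c2_an

namespace Pool.Agent.S05776

/-- The negation of the preceding statement: For every bounded simply connected planar domain, the number of critical points of its torsion function (Δv=−2, v=0 on the boundary) is at most 2m−1, where m is the number of components of the set of local maxima of the distance to the boundary. -/
theorem result :
    ¬ (∀ (Ω : Set ℂ), IsOpen Ω → Bornology.IsBounded Ω → SimplyConnectedSpace Ω →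
    ∀ (v : ℂ → ℝ), ContDiffOn ℝ 2 v Ω →
      (∀ z ∈ Ω, fderiv ℝ (fun w => fderiv ℝ v w (1 : ℂ)) z (1 : ℂ)
          + fderiv ℝ (fun w => fderiv ℝ v w Complex.I) z Complex.I = -2) →
      ContinuousOn v (closure Ω) →
      (∀ z ∈ frontier Ω, v z = 0) →
      Set.encard {z : ℂ | z ∈ Ω ∧ fderiv ℝ v z = 0}
        ≤ 2 * ENat.card (ConnectedComponents
              {z : ℂ | z ∈ Ω ∧ IsLocalMax (fun w : ℂ => Metric.infDist w Ωᶜ) z}) - 1) := by
  intro H
  obtain ⟨v, hv⟩ := Pool.Agent.Lib.MP_ab96c2_an.exists_tor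
  have hc := Pool.Agent.Lib.MP_ab96c2_an.contractible_Om
  have h := H Pool.Agent.Lib.MP_ab96c2_an.Om Pool.Agent.Lib.MP_ab96c2_an.isOpen_Om
    (Metric.isBounded_ball.subset Pool.Agent.Lib.MP_ab96c2_an.Om_subset_ball) inferInstance v
    hv.sol.contDiffOn (fun z hz => hv.sol.laplacian hz) hv.cont.continuousOn
    (fun z hz => hv.out z (by
      rw [Pool.Agent.Lib.MP_ab96c2_an.isOpen_Om.frontier_eq] at hz
      exact hz.2))
  have h1 := hv.two_crit
  have h2 := Pool.Agent.Lib.MP_ab96c2_an.card_components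
  have h3 : ∀ m : ℕ∞, m ≤ 1 → 2 * m - 1 ≤ 1 := by
    intro m hm
    calc 2 * m - 1 ≤ 2 * 1 - 1 := by gcongr
      _ = 1 := by decide
  exact absurd (h1.trans_le (h.trans (h3 _ h2))) (lt_irrefl _)

end Pool.Agent.S05776
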