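import Pool.Statements.S06983
import Pool.Agent.Lib.MP_061df2_co.Main

set_option autoImplicit false
open Pool Pool.MP_061df2_co

namespace Pool.Agent.S06983

/-- For every orientation of a cycle of even length 2m ≥ 4 and every η > 0, there is n0 such that for every n ≥ n0 divisible by 2m, every n-vertex digraph whose every vertex has in- and out-degree at least (1/2+η)n splits into vertex-disjoint copies of that oriented cycle. -/
theorem result :
    ∀ m : ℕ, 2 ≤ m → ∀ d : Fin (2 * m) → Bool, ∀ η : ℝ, 0 < η →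
      ∃ n0 : ℕ, ∀ n : ℕ, n0 ≤ n → 2 * m ∣ n →
        ∀ G : Digraph (Fin n),
          (∀ v : Fin n,
            ((1 : ℝ) / 2 + η) * (n : ℝ) ≤ (({w : Fin n | w ≠ v ∧ G.Adj v w}.ncard : ℕ) : ℝ) ∧
            ((1 : ℝ) / 2 + η) * (n : ℝ) ≤ (({w : Fin n | w ≠ v ∧ G.Adj w v}.ncard : ℕ) : ℝ)) →
          ∃ e : Fin (n / (2 * m)) × Fin (2 * m) ≃ Fin n,
            ∀ j : Fin (n / (2 * m)), ∀ i i' : Fin (2 * m),
              i'.val = (i.val + 1) % (2 * m) →
                (d i = true → G.Adj (e (j, i)) (e (j, i'))) ∧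
                (d i = false → G.Adj (e (j, i')) (e (j, i))) := by
  intro m hm d η hη
  obtain ⟨n0, h⟩ := Pool.Agent.OCyc.perfect (k := 2 * m) (by omega) (dvd_mul_right 2 m) d η hη
  refine ⟨n0, fun n hn hd G hG => ?_⟩
  have h1 := h (Fin n) (fun u v => v ≠ u ∧ G.Adj u v) (by simpa using hn) (by simpa using hd)
    (by
      intro v
      rw [Fintype.card_fin]
      constructor
      · convert (hG v).1 using 2
        rw [← Set.ncard_coe_finset]
        congr 1
        ext w
        simp
      · convert (hG v).2 using 2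
        rw [← Set.ncard_coe_finset]
        congr 1
        ext w
        simp [eq_comm])
  obtain ⟨e, he⟩ := h1.exists_equiv (by omega)
  exact ⟨e, fun j i i' hi => ⟨fun h => ((he j i i' hi).1 h).2, fun h => ((he j i i' hi).2 h).2⟩⟩

end Pool.Agent.S06983
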