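import Pool.Statements.S07166
import Pool.Agent.Lib.MP_0cffd2_co.Main

set_option autoImplicit false
open Pool Pool.MP_0cffd2_co

namespace Pool.Agent.S07166

/-- The negation of the preceding statement: There is a set of 4096 binary words of length 20 in which any two distinct words differ in at least 5 positions, i.e. A(20,5) ≥ 4096. -/
theorem result :
    ¬ (∃ C : Finset (Fin 20 → Bool), C.card = 4096 ∧
      ∀ x ∈ C, ∀ y ∈ C, x ≠ y → 5 ≤ hammingDist x y) := by
  rintro ⟨C, hc, hd⟩
  have := Pool.Agent.Lib.MP_0cffd2_co.card_le_4078 C hd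
  omega

end Pool.Agent.S07166
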