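import Pool.Statements.S07411
import Pool.Agent.Lib.MP_1a0ba0_co.Eight

set_option autoImplicit false
open Pool Pool.MP_1a0ba0_co

namespace Pool.Agent.S07411

/-- There exist between 1 and 11 convex bodies in 3-space with pairwise disjoint interiors such that any continuous rigid motion of one body, keeping its interior disjoint from the others, leaves that body's position unchanged. -/
theorem result :
    ∃ n : ℕ, 0 < n ∧ n < 12 ∧
      ∃ K : Fin n → Set (EuclideanSpace ℝ (Fin 3)),
        (∀ i, IsCompact (K i) ∧ Convex ℝ (K i) ∧ (interior (K i)).Nonempty) ∧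
        (∀ i j, i ≠ j → Disjoint (interior (K i)) (interior (K j))) ∧
        ∀ i : Fin n, ∀ γ : unitInterval → EuclideanSpace ℝ (Fin 3) → EuclideanSpace ℝ (Fin 3),
          (∀ t, Isometry (γ t)) →
          Continuous (fun p : unitInterval × EuclideanSpace ℝ (Fin 3) => γ p.1 p.2) →
          γ 0 = id →
          (∀ t, ∀ j, j ≠ i → Disjoint (interior (γ t '' K i)) (interior (K j))) →
          ∀ t, γ t '' K i = K i := by
  open Pool.Agent.Lib.MP_1a0ba0_co Pool.Agent.Lib.MP_1a0ba0_co.Eight in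
  refine ⟨8, by norm_num, by norm_num, X.K,
    fun i => ⟨X.K_compact v4 i, X.K_convex i, X.K_int v2 i⟩, fun i j h => X.disj v1 i j h, ?_⟩
  intro i γ hγ hc h0 hd t
  rw [Pool.Agent.Lib.MP_1a0ba0_co.Eight.X.blocked Pool.Agent.Lib.MP_1a0ba0_co.Eight.v1
    Pool.Agent.Lib.MP_1a0ba0_co.Eight.v2 Pool.Agent.Lib.MP_1a0ba0_co.Eight.v3
    Pool.Agent.Lib.MP_1a0ba0_co.Eight.v4 i γ hγ hc h0 hd t, Set.image_id]

end Pool.Agent.S07411
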