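import Pool.Statements.S07588
import Pool.Agent.Lib.MP_1fd81f_co.Count

set_option autoImplicit false
open scoped Pointwise
open Pool Pool.MP_1fd81f_co

namespace Pool.Agent.S07588

/-- The negation of the preceding statement: There are constants c>0 and K such that every A in F_2^n of density at least 0.01 admits B = S_1+...+S_l with l and all ∣S_i∣ at most K(n+1)^K, B of density at least c, and B+B contained in A+A. -/
theorem result :
    ¬ (∃ c : ℝ, 0 < c ∧ ∃ K : ℕ, ∀ n : ℕ, ∀ A : Finset (Fin n → ZMod 2),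
      (A.card : ℝ) ≥ 0.01 * (2 : ℝ) ^ n →
      ∃ ℓ : ℕ, ∃ S : Fin ℓ → Finset (Fin n → ZMod 2), ∃ B : Finset (Fin n → ZMod 2),
        ℓ ≤ K * (n + 1) ^ K ∧
        (∀ i, (S i).card ≤ K * (n + 1) ^ K) ∧
        (∀ x, x ∈ B ↔ ∃ f : Fin ℓ → (Fin n → ZMod 2), (∀ i, f i ∈ S i) ∧ ∑ i, f i = x) ∧
        (B.card : ℝ) ≥ c * (2 : ℝ) ^ n ∧
        B + B ⊆ A + A) := by
  rintro ⟨c, hc, K, h⟩
  obtain ⟨γ, hγ, n0, hs⟩ := Pool.Agent.Lib.MP_1fd81f_co.strong c hc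
  obtain ⟨n, hn, hp⟩ := Pool.Agent.Lib.MP_1fd81f_co.poly_le_exp γ hγ (2 * ((K : ℝ) + 1) ^ 2)
    (by positivity) (2 * K + 1) n0
  obtain ⟨A, hA, hno⟩ := hs n hn (Pool.Agent.Lib.MP_1fd81f_co.fam n (K * (n + 1) ^ K))
    ((Pool.Agent.Lib.MP_1fd81f_co.fam_card_exp n K).trans (Real.exp_le_exp.mpr hp))
  obtain ⟨l, S, B, hl, hS, hB, hd, hsub⟩ := h n A hA
  have hne : B.Nonempty := by
    rw [← Finset.card_pos]
    have : (0 : ℝ) < B.card := lt_of_lt_of_le (by positivity) hd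
    exact_mod_cast this
  exact hno B (Pool.Agent.Lib.MP_1fd81f_co.mem_fam hl S B hS hB hne) hd hsub

end Pool.Agent.S07588
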