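import Pool.Statements.S07649
import Pool.Agent.Lib.MP_22c8d1_co.Final

set_option autoImplicit false
open Pool Pool.MP_22c8d1_co

namespace Pool.Agent.S07649

/-- For all n and s ≥ 1, the max edges of an n-vertex graph 2-edge-colourable with no monochromatic s-edge matching equals the max edges of one Z_s-edge-colourable with no s-edge matching of colour sum 0. -/
theorem result : ∀ n s : ℕ, 1 ≤ s →
    sSup {k : ℕ | ∃ G : SimpleGraph (Fin n), G.edgeSet.ncard = k ∧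
      ∃ c : Sym2 (Fin n) → Bool, ∀ F : Finset (Sym2 (Fin n)),
        (↑F : Set (Sym2 (Fin n))) ⊆ G.edgeSet → F.card = s →
        (∀ e ∈ F, ∀ f ∈ F, e ≠ f → ∀ v ∈ e, v ∉ f) →
        ¬ ∃ b : Bool, ∀ e ∈ F, c e = b}
    =
    sSup {k : ℕ | ∃ G : SimpleGraph (Fin n), G.edgeSet.ncard = k ∧
      ∃ c : Sym2 (Fin n) → ZMod s, ∀ F : Finset (Sym2 (Fin n)),
        (↑F : Set (Sym2 (Fin n))) ⊆ G.edgeSet → F.card = s →
        (∀ e ∈ F, ∀ f ∈ F, e ≠ f → ∀ v ∈ e, v ∉ f) →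
        ∑ e ∈ F, c e ≠ 0} := by
  intro n s hs
  exact Pool.Agent.Lib.MP_22c8d1_co.main_eq (V := Fin n) s hs

end Pool.Agent.S07649
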