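import Pool.Statements.S08306
import Pool.Agent.Lib.MP_3f4edd_co.Main

set_option autoImplicit false
open Pool Pool.MP_3f4edd_co

namespace Pool.Agent.S08306

/-- The negation of the preceding statement: For all k and r there is n such that every k-colouring of the permutations of n symbols, viewed as words, has r nonempty words partitioning the symbols whose r! concatenations in all orders get one colour. -/
theorem result :
    ¬ (∀ k r : ℕ, ∃ n : ℕ, ∀ c : List (Fin n) → Fin k,
      ∃ x : Fin r → List (Fin n),
        (∀ i, x i ≠ []) ∧
        (List.ofFn x).flatten.Nodup ∧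
        (List.ofFn x).flatten.length = n ∧
        ∀ σ τ : Equiv.Perm (Fin r),
          c (List.ofFn (fun i => x (σ i))).flatten =
            c (List.ofFn (fun i => x (τ i))).flatten) := by
  intro h
  obtain ⟨n, hn⟩ := h 2 5
  obtain ⟨x, h1, h2, -, h4⟩ := hn Pool.Agent.Lib.MP_3f4edd_co.col
  exact Pool.Agent.Lib.MP_3f4edd_co.no_copy x h1 h2 h4

end Pool.Agent.S08306
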