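import Pool.Statements.S08827
import Pool.Agent.Lib.MP_568ee7_co.Final

set_option autoImplicit false
open Pool Pool.MP_568ee7_co

namespace Pool.Agent.S08827

/-- Every finite graph that is both a tolerance graph (closed intervals, positive tolerances) and the complement of a transitively orientable graph has a tolerance representation where each tolerance is at most its interval's length. -/
theorem result :
    ∀ (V : Type) [Fintype V] (G : SimpleGraph V),
      (∃ a b t : V → ℝ, (∀ v, a v ≤ b v) ∧ (∀ v, 0 < t v) ∧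
        ∀ v w, v ≠ w →
          (G.Adj v w ↔ min (t v) (t w) ≤ max 0 (min (b v) (b w) - max (a v) (a w)))) →
      (∃ r : V → V → Prop, (∀ x, ¬ r x x) ∧ (∀ x y z, r x y → r y z → r x z) ∧
        ∀ v w, v ≠ w → (¬ G.Adj v w ↔ (r v w ∨ r w v))) →
      ∃ a b t : V → ℝ, (∀ v, a v ≤ b v) ∧ (∀ v, 0 < t v) ∧ (∀ v, t v ≤ b v - a v) ∧
        ∀ v w, v ≠ w →
          (G.Adj v w ↔ min (t v) (t w) ≤ max 0 (min (b v) (b w) - max (a v) (a w))) := by
  rintro V _ G ⟨a, b, t, -, ht, hG⟩ ⟨r, irr, tr, cmp⟩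
  obtain ⟨a', b', t', h1, h2, h3, -, h4⟩ :=
    Pool.Agent.Lib.MP_568ee7_co.bounded_rep G a b t ht hG r irr tr cmp
  exact ⟨a', b', t', h1, h2, h3, h4⟩

end Pool.Agent.S08827
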