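import Pool.Statements.S10076
import Pool.Agent.Lib.MP_8e2408_co.Main

set_option autoImplicit false
open Pool Pool.MP_8e2408_co

namespace Pool.Agent.S10076

/-- The negation of the preceding statement: There is a constant c>0 such that every transitive action of a finite group G on a nonempty finite set X admits a nonempty T⊆G, of size at most ∣X∣^c, in which for all x,y exactly ∣T∣/∣X∣ elements send x to y. -/
theorem result :
    ¬ (∃ c : ℝ, 0 < c ∧
      ∀ (G : Type) (X : Type) [Group G] [Fintype G] [MulAction G X] [Fintype X]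
        [DecidableEq X] [Nonempty X],
        MulAction.IsPretransitive G X →
          ∃ T : Finset G, T.Nonempty ∧
            (∀ x y : X, (T.filter (fun g => g • x = y)).card * Fintype.card X = T.card) ∧
            (T.card : ℝ) ≤ (Fintype.card X : ℝ) ^ c) := by
  rintro ⟨c, hc, h⟩
  obtain ⟨G, X, i1, i2, i3, i4, i5, i6, htr, hT⟩ :=
    Pool.Agent.Lib.MP_8e2408_co.main ⌈c⌉₊ (Nat.ceil_pos.2 hc)
  obtain ⟨T, hne, hu, hle⟩ := h G X htr
  have h1 := hT T hne hu
  have h2 : (1 : ℝ) ≤ (Fintype.card X : ℝ) := by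
    exact_mod_cast Fintype.card_pos
  have h3 : (Fintype.card X : ℝ) ^ c ≤ (Fintype.card X : ℝ) ^ ((⌈c⌉₊ : ℕ) : ℝ) :=
    Real.rpow_le_rpow_of_exponent_le h2 (Nat.le_ceil c)
  rw [Real.rpow_natCast] at h3
  have h4 : (Fintype.card X : ℝ) ^ ⌈c⌉₊ < (T.card : ℝ) := by exact_mod_cast h1
  linarith

end Pool.Agent.S10076
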