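import Pool.Statements.S10185
import Pool.Agent.Lib.PT5.BD_TAB

set_option autoImplicit false
open Pool Pool.MP_93a6aa_co

namespace Pool.Agent.S10185

/-- There is a number g such that every finite 3-regular simple graph whose girth is at least g admits a graph homomorphism to the 5-cycle. -/
theorem result :
    ∃ g : ℕ, ∀ (V : Type) [Fintype V] (G : SimpleGraph V) [DecidableRel G.Adj],
      G.IsRegularOfDegree 3 → (g : ℕ∞) ≤ G.egirth →
        Nonempty (G →g SimpleGraph.cycleGraph 5) := by
  exact Pool.Agent.Lib.PT5.fin_of_TAB Pool.Agent.Lib.PT5.tab_all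

end Pool.Agent.S10185
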