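import Pool.Statements.S10409
import Pool.Agent.Lib.MP_9d820d_co.Reduce
import Pool.Agent.Lib.MP_9d820d_co.G.AG
import Pool.Agent.Lib.MP_9d820d_co.Inn.IG

set_option autoImplicit false
open Pool Pool.MP_9d820d_co

namespace Pool.Agent.S10409

/-- For disks of radius r>0 at finitely many centers in the plane: if every three of them are met by a common line, then one line meets all the disks of radius (1+√5)/2 · r at those centers. -/
theorem result :
    ∀ (r : ℝ), 0 < r → ∀ (n : ℕ) (x : Fin n → EuclideanSpace ℝ (Fin 2)),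
      (∀ i j k : Fin n, ∃ p v : EuclideanSpace ℝ (Fin 2), v ≠ 0 ∧
        ∀ m : Fin n, (m = i ∨ m = j ∨ m = k) →
          ∃ t : ℝ, dist (p + t • v) (x m) ≤ r) →
      ∃ p v : EuclideanSpace ℝ (Fin 2), v ≠ 0 ∧
        ∀ m : Fin n, ∃ t : ℝ, dist (p + t • v) (x m) ≤ ((1 + Real.sqrt 5) / 2) * r :=
  Pool.Agent.Lib.MP_9d820d_co.reduce fun X x1 y1 x4 y4 al be ga h =>
    Pool.Agent.Lib.MP_9d820d_co.Fast.A.G_0 (P := ⟨X, x1, y1, x4, y4, al, be, ga⟩) h
      (Pool.Agent.Lib.MP_9d820d_co.Inn.notLoc (P := ⟨X, x1, y1, x4, y4, al, be, ga⟩) h)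

end Pool.Agent.S10409
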