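import Pool.Statements.S11027
import Pool.Agent.Lib.MP_b900b7_co.Transfer

set_option autoImplicit false
open Pool Pool.MP_b900b7_co

namespace Pool.Agent.S11027

/-- Any compact convex set in 3-space with nonempty interior having a family of translates with pairwise disjoint interiors, each meeting at least 25 others, is a translate of a parallelepiped. -/
theorem result :
    ∀ K : Set (EuclideanSpace ℝ (Fin 3)),
      Convex ℝ K → IsCompact K → (interior K).Nonempty →
      (∃ T : Set (EuclideanSpace ℝ (Fin 3)),
        T.Nonempty ∧
        (∀ s ∈ T, ∀ t ∈ T, s ≠ t →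
          Disjoint (interior ((fun x => x + s) '' K))
                   (interior ((fun x => x + t) '' K))) ∧
        (∀ s ∈ T,
          (25 : ℕ∞) ≤ {t ∈ T | t ≠ s ∧
            ((fun x => x + s) '' K ∩ (fun x => x + t) '' K).Nonempty}.encard)) →
      ∃ a : EuclideanSpace ℝ (Fin 3), ∃ v : Fin 3 → EuclideanSpace ℝ (Fin 3),
        K = (fun x => a + x) '' parallelepiped v := by
  rintro K hc hk hi ⟨T, hT, hd, hn⟩
  exact Pool.Agent.Lib.MP_b900b7_co.final K hc hk hi T hT hd hn

end Pool.Agent.S11027
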