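import Pool.Statements.S11306
import Pool.Agent.Lib.MP_c4a252_co.Final

set_option autoImplicit false
open Pool Pool.MP_c4a252_co

namespace Pool.Agent.S11306

/-- The negation of the preceding statement: The supremum, over compact connected planar sets of positive diameter, of rendezvous number divided by diameter equals the supremum of the average pairwise distance (sum over ordered pairs divided by n squared) of finite planar point sets of diameter at most 1. -/
theorem result :
    ¬ (IsLUB
      {r : ℝ | ∃ E : Set (EuclideanSpace ℝ (Fin 2)),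
        IsCompact E ∧ IsConnected E ∧ 0 < Metric.diam E ∧
        ∃ a : ℝ,
          (∀ n : ℕ, 0 < n → ∀ x : Fin n → EuclideanSpace ℝ (Fin 2),
            (∀ i, x i ∈ E) → ∃ y ∈ E, (∑ i, dist (x i) y) / (n : ℝ) = a) ∧
          r = a / Metric.diam E}
      (sSup {s : ℝ | ∃ n : ℕ, 0 < n ∧
        ∃ x : Fin n → EuclideanSpace ℝ (Fin 2),
          (∀ i j, dist (x i) (x j) ≤ 1) ∧
          s = (∑ i, ∑ j, dist (x i) (x j)) / ((n : ℝ) ^ 2)})) := by
  intro h
  obtain ⟨c, hc, hg⟩ := Pool.Agent.Lib.MP_c4a252_co.gap'
  refine absurd (h.2 (?_ : c ∈ upperBounds _)) hc.not_ge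
  rintro r ⟨E, h1, h2, h3, a, h4, rfl⟩
  exact hg E a h1 h2 h3 h4

end Pool.Agent.S11306
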