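import Pool.Statements.S11644
import Pool.Agent.Lib.MP_d302ba_co.Seq

set_option autoImplicit false
open Filter Asymptotics
open Pool Pool.MP_d302ba_co

namespace Pool.Agent.S11644

/-- The negation of the preceding statement: Fix m(n) with n^{4/3}(log n)^{1/3} = o(m) and m at most C(n,2) − cn² for some c>0. Then the fraction of labelled n-vertex induced-C4-free graphs with m edges that are split tends to 1. -/
theorem result :
    ¬ (∀ m : ℕ → ℕ,
      (fun n : ℕ => (n : ℝ) ^ ((4 : ℝ) / 3) * (Real.log n) ^ ((1 : ℝ) / 3))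
          =o[atTop] (fun n : ℕ => (m n : ℝ)) →
      (∃ c : ℝ, 0 < c ∧ ∀ᶠ n in atTop, (m n : ℝ) ≤ ((n.choose 2 : ℕ) : ℝ) - c * (n : ℝ) ^ 2) →
      Tendsto (fun n : ℕ =>
        (({G : SimpleGraph (Fin n) | G.edgeSet.ncard = m n ∧
            (∀ a b c d : Fin n, a ≠ c → b ≠ d → G.Adj a b → G.Adj b c → G.Adj c d →
              G.Adj d a → G.Adj a c ∨ G.Adj b d) ∧
            ∃ S : Set (Fin n), (∀ u ∈ S, ∀ v ∈ S, u ≠ v → G.Adj u v) ∧
              (∀ u, u ∉ S → ∀ v, v ∉ S → ¬ G.Adj u v)}.ncard : ℕ) : ℝ) /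
        (({G : SimpleGraph (Fin n) | G.edgeSet.ncard = m n ∧
            (∀ a b c d : Fin n, a ≠ c → b ≠ d → G.Adj a b → G.Adj b c → G.Adj c d →
              G.Adj d a → G.Adj a c ∨ G.Adj b d)}.ncard : ℕ) : ℝ))
        atTop (nhds 1)) := by
  intro h
  exact Pool.Agent.Lib.MP_d302ba_co.not_tendsto
    (h Pool.Agent.Lib.MP_d302ba_co.mm Pool.Agent.Lib.MP_d302ba_co.mm_littleO
      Pool.Agent.Lib.MP_d302ba_co.mm_upper)

end Pool.Agent.S11644
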