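import Pool.Statements.S12288
import Pool.Agent.Lib.MP_ee6896_co.Main

set_option autoImplicit false
open Pool Pool.MP_ee6896_co

namespace Pool.Agent.S12288

/-- The negation of the preceding statement: There are constants C, d such that for every finite graph G, Builder can force a monochromatic copy of G in the online edge-colouring game while keeping maximum degree at most C(Δ(G)+1)^d, i.e. odr(G) is polynomially bounded in Δ(G). -/
theorem result :
    ¬ (∃ C d : ℕ, ∀ (V : Type) [Fintype V] (G : SimpleGraph V) [DecidableRel G.Adj],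
      ∃ B : List (Sym2 ℕ × Bool) → Sym2 ℕ,
        ∀ P : List (Sym2 ℕ × Bool) → Sym2 ℕ → Bool,
          ∀ h : ℕ → List (Sym2 ℕ × Bool),
            h 0 = [] →
            (∀ n, h (n + 1) = h n ++ [(B (h n), P (h n) (B (h n)))]) →
            ∃ n : ℕ,
              ((h n).map Prod.fst).Nodup ∧
              (∀ x ∈ h n, ¬ x.1.IsDiag) ∧
              (∀ v : ℕ, ((h n).filter (fun x => v ∈ x.1)).length
                  ≤ C * (G.maxDegree + 1) ^ d) ∧
              ∃ φ : V → ℕ, Function.Injective φ ∧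
                ∃ c : Bool, ∀ u w : V, G.Adj u w → (s(φ u, φ w), c) ∈ h n) := by
  rintro ⟨C, d, H⟩
  obtain ⟨M, hM⟩ := Pool.Agent.Lib.MP_ee6896_co.exp_beats C d
  obtain ⟨B, hB⟩ := H (Fin (3 * M + 2)) ⊤
  set k := C * ((⊤ : SimpleGraph (Fin (3 * M + 2))).maxDegree + 1) ^ d with hk
  have hkle : k ≤ C * (3 * M + 2) ^ d := by
    have h1 := (⊤ : SimpleGraph (Fin (3 * M + 2))).maxDegree_lt_card_verts
    rw [Fintype.card_fin] at h1
    exact Nat.mul_le_mul_left _ (Nat.pow_le_pow_left h1 d)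
  obtain ⟨n, h1, h2, h3, φ, hφ, c, h4⟩ := hB
    (Pool.Agent.Lib.MP_ee6896_co.painter (1 / ((k + 1 : ℕ) : ℝ)))
    (Pool.Agent.Lib.MP_ee6896_co.play B
      (Pool.Agent.Lib.MP_ee6896_co.painter (1 / ((k + 1 : ℕ) : ℝ)))) rfl (fun _ => rfl)
  have key := Pool.Agent.Lib.MP_ee6896_co.painter_wins M k B _ rfl (fun _ => rfl) n h1 h2 h3 φ hφ c
    (fun u w huw => h4 u w huw)
  have hr : (k : ℝ) ≤ ((C * (3 * M + 2) ^ d : ℕ) : ℝ) := by exact_mod_cast hkle
  have : 3 * ((k : ℝ) + 1) ^ 2 ≤ 3 * (((C * (3 * M + 2) ^ d : ℕ) : ℝ) + 1) ^ 2 := by gcongr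
  linarith

end Pool.Agent.S12288
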