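import Pool.Statements.S12769
import Pool.Agent.Lib.MP_1126ca_gt.Main

set_option autoImplicit false
open Pool Pool.MP_1126ca_gt

namespace Pool.Agent.S12769

/-- Every compact, path-connected, hereditarily unicoherent subset of the plane (a planar dendroid) is a continuous image of some arc-like (chainable) metric continuum, i.e. is weakly chainable. -/
theorem result :
  ∀ X : Set (ℝ × ℝ), IsCompact X → IsPathConnected X →
    (∀ A B : Set (ℝ × ℝ), A ⊆ X → B ⊆ X → IsCompact A → IsConnected A →
      IsCompact B → IsConnected B → IsPreconnected (A ∩ B)) →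
    ∃ (Y : Type) (_ : MetricSpace Y), CompactSpace Y ∧ ConnectedSpace Y ∧
      (∀ ε : ℝ, 0 < ε → ∃ g : Y → ℝ, Continuous g ∧
        ∀ y y' : Y, g y = g y' → dist y y' < ε) ∧
      ∃ f : Y → ℝ × ℝ, Continuous f ∧ Set.range f = X :=
  Pool.Agent.Lib.MP_1126ca_gt.weakly_chainable

end Pool.Agent.S12769
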