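import Pool.Statements.S12787
import Pool.Agent.Lib.MP_13d336_gt.Main

set_option autoImplicit false
open Pool Pool.MP_13d336_gt

namespace Pool.Agent.S12787

/-- For m ≥ 2, a smooth unit tangent field on S^{2m} minus p minimises the volume ∫√det(I+(∇V)*∇V) among all such fields iff it is a parallel transport field from −p. -/
theorem result :
    ∀ m : ℕ, 2 ≤ m → ∀ p : EuclideanSpace ℝ (Fin (2 * m + 1)), ‖p‖ = 1 →
    ∀ P : EuclideanSpace ℝ (Fin (2 * m + 1)) →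
        (EuclideanSpace ℝ (Fin (2 * m + 1)) →L[ℝ] EuclideanSpace ℝ (Fin (2 * m + 1))),
      (∀ x : EuclideanSpace ℝ (Fin (2 * m + 1)),
        P x = ContinuousLinearMap.id ℝ (EuclideanSpace ℝ (Fin (2 * m + 1)))
          - (innerSL ℝ x).smulRight x) →
    ∀ D : (EuclideanSpace ℝ (Fin (2 * m + 1)) → EuclideanSpace ℝ (Fin (2 * m + 1))) →
        EuclideanSpace ℝ (Fin (2 * m + 1)) →
        (EuclideanSpace ℝ (Fin (2 * m + 1)) →L[ℝ] EuclideanSpace ℝ (Fin (2 * m + 1))),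
      (∀ W x, D W x = (P x).comp ((fderiv ℝ W x).comp (P x))) →
    ∀ vol : (EuclideanSpace ℝ (Fin (2 * m + 1)) → EuclideanSpace ℝ (Fin (2 * m + 1))) → ENNReal,
      (∀ W, vol W = MeasureTheory.lintegral
          (MeasureTheory.Measure.toSphere
            (MeasureTheory.volume : MeasureTheory.Measure (EuclideanSpace ℝ (Fin (2 * m + 1)))))
          (fun x : Metric.sphere (0 : EuclideanSpace ℝ (Fin (2 * m + 1))) 1 =>
            ENNReal.ofReal (Real.sqrt (LinearMap.det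
              (ContinuousLinearMap.id ℝ (EuclideanSpace ℝ (Fin (2 * m + 1)))
                + (ContinuousLinearMap.adjoint (D W x.1)).comp (D W x.1)).toLinearMap)))) →
    ∀ A : (EuclideanSpace ℝ (Fin (2 * m + 1)) → EuclideanSpace ℝ (Fin (2 * m + 1))) → Prop,
      (∀ W, A W ↔
          ((∃ U : Set (EuclideanSpace ℝ (Fin (2 * m + 1))), IsOpen U ∧
              Metric.sphere (0 : EuclideanSpace ℝ (Fin (2 * m + 1))) 1 \ {p} ⊆ U ∧
              ContDiffOn ℝ ((⊤ : ℕ∞) : WithTop ℕ∞) W U) ∧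
            ∀ x ∈ Metric.sphere (0 : EuclideanSpace ℝ (Fin (2 * m + 1))) 1 \ {p},
              ‖W x‖ = 1 ∧ inner ℝ (W x) x = 0)) →
    ∀ V : EuclideanSpace ℝ (Fin (2 * m + 1)) → EuclideanSpace ℝ (Fin (2 * m + 1)), A V →
      ((∀ W, A W → vol V ≤ vol W) ↔
        ∃ v : EuclideanSpace ℝ (Fin (2 * m + 1)), ‖v‖ = 1 ∧ inner ℝ v p = 0 ∧
          ∀ x ∈ Metric.sphere (0 : EuclideanSpace ℝ (Fin (2 * m + 1))) 1 \ {p},
            V x = v - (inner ℝ v x / (1 - inner ℝ p x)) • (x - p)) := by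
  intro m hm p hp P hP D hD vol hvol A hA V hV
  obtain ⟨J, rfl⟩ : ∃ J, m = J + 2 := ⟨m - 2, by omega⟩
  have hE : Module.finrank ℝ (EuclideanSpace ℝ (Fin (2 * (J + 2) + 1))) = 2 * (J + 1) + 3 := by
    rw [finrank_euclideanSpace_fin]; ring
  have h1 : ∀ W x, D W x = Pool.Agent.Lib.MP_13d336_gt.DD W x := fun W x => by
    rw [hD, hP]; rfl
  have h2 : ∀ W, vol W = Pool.Agent.Lib.MP_13d336_gt.volE W := fun W => by
    rw [hvol]; simp only [h1]; rfl
  have h3 : ∀ W, A W ↔ Pool.Agent.Lib.MP_13d336_gt.Adm p W := hA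
  simp only [h2, h3]
  exact Pool.Agent.Lib.MP_13d336_gt.main J hE hp ((h3 V).1 hV)

end Pool.Agent.S12787
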