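import Pool.Statements.S12893
import Pool.Agent.Lib.MP_23eee6_gt.Trace
import Pool.Agent.Lib.MP_23eee6_gt.QS
import Pool.Agent.Lib.MP_23eee6_gt.Gaps

set_option autoImplicit false
open Pool Pool.MP_23eee6_gt

namespace Pool.Agent.S12893

/-- There is a discrete, torsion-free, infinitely generated Fuchsian group of the first kind and a non-affine quasisymmetric conjugacy of it to another Möbius group under which no element representing a simple closed geodesic gets a larger trace, i.e. no simple curve is lengthened. -/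
theorem result :
    ∃ Γ : Subgroup (Matrix.SpecialLinearGroup (Fin 2) ℝ),
      (∃ ε : ℝ, 0 < ε ∧ ∀ g ∈ Γ,
        (∀ i j : Fin 2, |(g : Matrix (Fin 2) (Fin 2) ℝ) i j - (1 : Matrix (Fin 2) (Fin 2) ℝ) i j| < ε) →
          g = 1) ∧
      (∀ g ∈ Γ, ∀ n : ℕ, 0 < n →
        (((g ^ n : Matrix.SpecialLinearGroup (Fin 2) ℝ) : Matrix (Fin 2) (Fin 2) ℝ) = 1 ∨
          ((g ^ n : Matrix.SpecialLinearGroup (Fin 2) ℝ) : Matrix (Fin 2) (Fin 2) ℝ) = -1) →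
        ((g : Matrix (Fin 2) (Fin 2) ℝ) = 1 ∨ (g : Matrix (Fin 2) (Fin 2) ℝ) = -1)) ∧
      ¬ Γ.FG ∧
      (∀ x : ℝ, (x : ℂ) ∈ closure (Set.range (fun g : Γ =>
        ((((g : Matrix.SpecialLinearGroup (Fin 2) ℝ) : Matrix (Fin 2) (Fin 2) ℝ) 0 0 : ℂ) * Complex.I
            + (((g : Matrix.SpecialLinearGroup (Fin 2) ℝ) : Matrix (Fin 2) (Fin 2) ℝ) 0 1 : ℂ)) /
          ((((g : Matrix.SpecialLinearGroup (Fin 2) ℝ) : Matrix (Fin 2) (Fin 2) ℝ) 1 0 : ℂ) * Complex.I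
            + (((g : Matrix.SpecialLinearGroup (Fin 2) ℝ) : Matrix (Fin 2) (Fin 2) ℝ) 1 1 : ℂ))))) ∧
      ∃ h : ℝ → ℝ, StrictMono h ∧ Continuous h ∧ Function.Surjective h ∧
        (∃ M : ℝ, ∀ x t : ℝ, 0 < t →
          h (x + t) - h x ≤ M * (h x - h (x - t)) ∧ h x - h (x - t) ≤ M * (h (x + t) - h x)) ∧
        (¬ ∃ a b : ℝ, ∀ x : ℝ, h x = a * x + b) ∧
        ∀ g ∈ Γ, ∃ g' : Matrix.SpecialLinearGroup (Fin 2) ℝ,
          (∀ x : ℝ,
            (g : Matrix (Fin 2) (Fin 2) ℝ) 1 0 * x + (g : Matrix (Fin 2) (Fin 2) ℝ) 1 1 ≠ 0 →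
              ((g' : Matrix (Fin 2) (Fin 2) ℝ) 1 0 * h x + (g' : Matrix (Fin 2) (Fin 2) ℝ) 1 1 ≠ 0 ∧
                h (((g : Matrix (Fin 2) (Fin 2) ℝ) 0 0 * x + (g : Matrix (Fin 2) (Fin 2) ℝ) 0 1) /
                    ((g : Matrix (Fin 2) (Fin 2) ℝ) 1 0 * x + (g : Matrix (Fin 2) (Fin 2) ℝ) 1 1)) =
                  ((g' : Matrix (Fin 2) (Fin 2) ℝ) 0 0 * h x + (g' : Matrix (Fin 2) (Fin 2) ℝ) 0 1) /
                    ((g' : Matrix (Fin 2) (Fin 2) ℝ) 1 0 * h x + (g' : Matrix (Fin 2) (Fin 2) ℝ) 1 1))) ∧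
          ((2 < |Matrix.trace (g : Matrix (Fin 2) (Fin 2) ℝ)| ∧
              ∀ k ∈ Γ, 2 ≤ Matrix.trace
                ((g * (k * g * k⁻¹) * g⁻¹ * (k * g * k⁻¹)⁻¹ : Matrix.SpecialLinearGroup (Fin 2) ℝ) :
                  Matrix (Fin 2) (Fin 2) ℝ)) →
            |Matrix.trace (g' : Matrix (Fin 2) (Fin 2) ℝ)| ≤ |Matrix.trace (g : Matrix (Fin 2) (Fin 2) ℝ)|) := by
  open Pool.Agent.Lib.MP_23eee6_gt in
  have hent := entry_ge sys.c sys.r sys.r_pos sys.r_le sys.sep0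
  open Pool.Agent.Lib.MP_23eee6_gt in
  refine ⟨sys.ρ.range, ⟨1, one_pos, ?_⟩, ?_, range_not_fg sys.c sys.r sys.r_pos sys.r_le sys.sep0,
    ?_, sys.h, sys.h_strictMono, sys.h_continuous, sys.h_surjective, ⟨_, sys.h_qs⟩,
    sys.h_not_affine, ?_⟩
  · rintro g ⟨w, rfl⟩ hg
    by_cases hw : w = 1
    · rw [hw, map_one]
    · have h1 := hent w hw
      have h2 := hg 1 0
      simp only [ne_eq, one_ne_zero, not_false_eq_true, Matrix.one_apply_ne, sub_zero] at h2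
      exact absurd h1 (not_le.2 h2)
  · rintro g ⟨w, rfl⟩ n hn hg
    left
    have h0 : w ^ n = 1 := by
      by_contra hw
      have h1 := hent _ hw
      rw [← map_pow] at hg
      rcases hg with hg | hg
      · rw [Lib.MP_23eee6_gt.Sys.ρ] at hg; rw [hg] at h1; simp at h1; linarith
      · rw [Lib.MP_23eee6_gt.Sys.ρ] at hg; rw [hg] at h1; simp at h1; linarith
    have h1 : w = 1 := (pow_eq_one_iff_left hn.ne').1 h0
    rw [h1, map_one]; rfl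
  · intro x
    rw [Metric.mem_closure_iff]
    intro ε hε
    obtain ⟨y, hy, hl⟩ := Lib.MP_23eee6_gt.sys.lim_dense x hε
    obtain ⟨w, hw⟩ := Lib.MP_23eee6_gt.sys.near_of_lim hl (half_pos hε)
    refine ⟨_, ⟨⟨Lib.MP_23eee6_gt.sys.ρ w, w, rfl⟩, rfl⟩, ?_⟩
    refine lt_of_le_of_lt (dist_triangle _ (y : ℂ) _) ?_
    rw [dist_eq_norm (y : ℂ), dist_comm, dist_eq_norm, ← Complex.ofReal_sub, Complex.norm_real,
      Real.norm_eq_abs]
    linarith
  · rintro g ⟨w, rfl⟩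
    open Pool.Agent.Lib.MP_23eee6_gt in
    refine ⟨sys.ρ' w, fun x hx => ?_, fun _ =>
      trace_le sys.c sys.c' sys.r sys.r_pos sys.sep0' sys.c'_shr w⟩
    open Pool.Agent.Lib.MP_23eee6_gt in
    have h0 : sys.Rel (x, 1) (sys.h x, 1) := Or.inr ⟨one_ne_zero, one_ne_zero, by simp⟩
    have h1 := Lib.MP_23eee6_gt.sys.rel_rho w h0
    simp only [Lib.MP_23eee6_gt.Sys.Rel, Lib.MP_23eee6_gt.act, mul_one] at h1
    rcases h1 with h1 | h1
    · exact absurd h1.1 hx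
    · exact ⟨h1.2.1, h1.2.2.symm⟩

end Pool.Agent.S12893
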