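import Pool.Statements.S12988
import Pool.Agent.Lib.MP_32448b_gt.Main

set_option autoImplicit false
open Pool Pool.MP_32448b_gt

namespace Pool.Agent.S12988

/-- The negation of the preceding statement: There is a metric continuum Y and integers k, m > 1 such that Y is the image of some dendrite under a continuous map all of whose fibers have exactly k points, but of no dendrite under such a map with all fibers of exactly m points. -/
theorem result :
    ¬ (∃ (Y : Type) (_ : MetricSpace Y) (_ : CompactSpace Y) (_ : ConnectedSpace Y) (k m : ℕ),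
      1 < k ∧ 1 < m ∧
      (∃ (X : Type) (_ : MetricSpace X) (_ : CompactSpace X) (_ : ConnectedSpace X)
          (_ : LocallyConnectedSpace X),
          (∀ g : Circle → X, Continuous g → ¬ Function.Injective g) ∧
          ∃ f : X → Y, Continuous f ∧ ∀ y : Y, Set.ncard (f ⁻¹' {y}) = k) ∧
      ¬ (∃ (X : Type) (_ : MetricSpace X) (_ : CompactSpace X) (_ : ConnectedSpace X)
          (_ : LocallyConnectedSpace X),
          (∀ g : Circle → X, Continuous g → ¬ Function.Injective g) ∧
          ∃ f : X → Y, Continuous f ∧ ∀ y : Y, Set.ncard (f ⁻¹' {y}) = m)) := by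
  rintro ⟨Y, _, _, _, k, m, hk, hm, ⟨X, _, _, _, _, hX, f, hf, h⟩, hno⟩
  exact hno (Pool.Agent.Lib.MP_32448b_gt.exists_exact hX hf hk h hm)

end Pool.Agent.S12988
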