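import Pool.Statements.S14325
import Pool.Agent.Lib.MP_0447a2_lc.Construct
import Pool.Agent.Lib.MP_0447a2_lc.Reduce

set_option autoImplicit false
open Pool Pool.MP_0447a2_lc

namespace Pool.Agent.S14325

/-- For a monic irreducible integer P whose p>1 roots of modulus >1 are all real, in any order, and 0<a<p, the set of ξ in R^a making the sum of ξ_i α_i^n u.d. mod 1 is Π⁰₃ and every Π⁰₃ subset of Baire space continuously reduces to it. -/
theorem result :
    ∀ (P : Polynomial ℤ), P.Monic → Irreducible P →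
      (∀ z : ℂ, Polynomial.aeval z P = 0 → 1 < ‖z‖ → z.im = 0) →
      ∀ (p : ℕ) (α : Fin p → ℝ), Function.Injective α →
        Set.range α = {x : ℝ | Polynomial.aeval x P = 0 ∧ 1 < |x|} →
        1 < p →
        ∀ (a : ℕ), 0 < a → ∀ (hap : a < p),
          ∀ A : Set (Fin a → ℝ),
            A = {ξ : Fin a → ℝ | ∀ s t : ℝ, 0 ≤ s → s ≤ t → t ≤ 1 →
              Filter.Tendsto
                (fun N : ℕ =>
                  (((Finset.range N).filter (fun n =>
                      s ≤ Int.fract (∑ i : Fin a, ξ i * α (Fin.castLE hap.le i) ^ n) ∧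
                      Int.fract (∑ i : Fin a, ξ i * α (Fin.castLE hap.le i) ^ n) < t)).card : ℝ)
                    / (N : ℝ))
                Filter.atTop (nhds (t - s))} →
            (∃ F : ℕ → ℕ → Set (Fin a → ℝ), (∀ i j, IsClosed (F i j)) ∧ A = ⋂ i, ⋃ j, F i j) ∧
            (∀ B : Set (ℕ → ℕ),
              (∃ G : ℕ → ℕ → Set (ℕ → ℕ), (∀ i j, IsClosed (G i j)) ∧ B = ⋂ i, ⋃ j, G i j) →
              ∃ f : (ℕ → ℕ) → (Fin a → ℝ), Continuous f ∧ B = f ⁻¹' A) := by
  intro P _ _ _ p α _ hrange _ a ha hap A hA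
  have hA' : A = {ξ : Fin a → ℝ | Pool.Agent.Lib.MP_0447a2_lc.UD
      (fun n => ∑ i : Fin a, ξ i * α (Fin.castLE hap.le i) ^ n)} := hA
  constructor
  · rw [hA']
    apply Pool.Agent.Lib.MP_0447a2_lc.UD_pi03
      (fun (ξ : Fin a → ℝ) (n : ℕ) => ∑ i : Fin a, ξ i * α (Fin.castLE hap.le i) ^ n)
    intro n
    fun_prop
  · rintro B ⟨G, hG, rfl⟩
    let i0 : Fin a := ⟨0, ha⟩
    have h1 : 1 < |α (Fin.castLE hap.le i0)| := by
      have : α (Fin.castLE hap.le i0) ∈ Set.range α := ⟨_, rfl⟩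
      rw [hrange] at this
      exact this.2
    obtain ⟨g, hg, hgU⟩ := Pool.Agent.Lib.MP_0447a2_lc.exists_reduction h1
    obtain ⟨Y, hY, hYB⟩ := Pool.Agent.Lib.MP_0447a2_lc.reduce_to_C3 G hG
    refine ⟨fun x => Pi.single i0 (g (Y x)), ?_, ?_⟩
    · exact (continuous_single (A := fun _ : Fin a => ℝ) i0).comp (hg.comp hY)
    · ext x
      rw [hYB, ← hgU, hA']
      have e : (fun n : ℕ => ∑ i : Fin a, (Pi.single i0 (g (Y x)) : Fin a → ℝ) i *
          α (Fin.castLE hap.le i) ^ n) = fun n : ℕ => g (Y x) * α (Fin.castLE hap.le i0) ^ n := by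
        funext n
        rw [Finset.sum_eq_single i0]
        · simp
        · intro b _ hb
          simp [hb]
        · simp
      show _ ↔ Pool.Agent.Lib.MP_0447a2_lc.UD _
      rw [e]

end Pool.Agent.S14325
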