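import Pool.Statements.S14619
import Pool.Agent.Lib.TV.Fin

set_option autoImplicit false
open Pool Pool.MP_3ecc11_lc

namespace Pool.Agent.S14619

/-- Some constant c>0 works for all BSTs T, T' on the same finite set of natural-number keys: splaying T's keys in preorder starting from T' costs at most c times the number of nodes, where each splay costs the key's depth plus one. -/
theorem result :
  ∃ c : ℝ, 0 < c ∧
  ∀ (nil : FreeMagma (Option ℕ))
    (node : ℕ → FreeMagma (Option ℕ) → FreeMagma (Option ℕ) → FreeMagma (Option ℕ))
    (inord preord : FreeMagma (Option ℕ) → List ℕ)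
    (depth : FreeMagma (Option ℕ) → ℕ → ℕ)
    (T T' : FreeMagma (Option ℕ)) (S : ℕ → FreeMagma (Option ℕ)),
    nil = FreeMagma.of none →
    (∀ (a : ℕ) (l r : FreeMagma (Option ℕ)),
      node a l r = FreeMagma.mul (FreeMagma.mul l (FreeMagma.of (some a))) r) →
    inord nil = [] →
    (∀ (a : ℕ) (l r : FreeMagma (Option ℕ)), inord (node a l r) = inord l ++ a :: inord r) →
    preord nil = [] →
    (∀ (a : ℕ) (l r : FreeMagma (Option ℕ)), preord (node a l r) = a :: (preord l ++ preord r)) →
    (∀ (a : ℕ) (l r : FreeMagma (Option ℕ)) (x : ℕ),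
      depth (node a l r) x = if x = a then 0 else if x < a then depth l x + 1 else depth r x + 1) →
    (∀ P : FreeMagma (Option ℕ) → Prop, P nil →
      (∀ (a : ℕ) (l r : FreeMagma (Option ℕ)), P l → P r → P (node a l r)) → P T) →
    (∀ P : FreeMagma (Option ℕ) → Prop, P nil →
      (∀ (a : ℕ) (l r : FreeMagma (Option ℕ)), P l → P r → P (node a l r)) → P T') →
    List.Pairwise (fun p q : ℕ => p < q) (inord T) →
    inord T' = inord T →
    S 0 = T' →
    (∀ i : ℕ, i < (preord T).length →
      ∀ x : ℕ, x = (preord T).getD i 0 →
      ∃ W : FreeMagma (Option ℕ),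
        Relation.ReflTransGen
          (fun U V : FreeMagma (Option ℕ) =>
            ∀ R : FreeMagma (Option ℕ) → FreeMagma (Option ℕ) → Prop,
            (∀ (a b : ℕ) (A B C D : FreeMagma (Option ℕ)),
              R (node a (node b (node x A B) C) D) (node x A (node b B (node a C D)))) →
            (∀ (a b : ℕ) (A B C D : FreeMagma (Option ℕ)),
              R (node a A (node b B (node x C D))) (node x (node b (node a A B) C) D)) →
            (∀ (a b : ℕ) (A B C D : FreeMagma (Option ℕ)),
              R (node a (node b A (node x B C)) D) (node x (node b A B) (node a C D))) →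
            (∀ (a b : ℕ) (A B C D : FreeMagma (Option ℕ)),
              R (node a A (node b (node x B C) D)) (node x (node a A B) (node b C D))) →
            (∀ (a : ℕ) (l l' r : FreeMagma (Option ℕ)), R l l' → R (node a l r) (node a l' r)) →
            (∀ (a : ℕ) (l r r' : FreeMagma (Option ℕ)), R r r' → R (node a l r) (node a l r')) →
            R U V)
          (S i) W ∧
        ((∃ A B : FreeMagma (Option ℕ), W = node x A B ∧ S (i + 1) = W) ∨
         (∃ (a : ℕ) (A B C : FreeMagma (Option ℕ)),
            (W = node a (node x A B) C ∧ S (i + 1) = node x A (node a B C)) ∨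
            (W = node a A (node x B C) ∧ S (i + 1) = node x (node a A B) C)))) →
    (∑ i ∈ Finset.range (preord T).length,
        (((depth (S i) ((preord T).getD i 0) : ℕ) : ℝ) + 1))
      ≤ c * ((preord T).length : ℝ) :=
  Pool.Agent.Lib.TV.BRIDGE_holds Pool.Agent.Lib.TV.BT_final

end Pool.Agent.S14619
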