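import Pool.Statements.S15699
import Pool.Agent.Lib.MP_3a1514_mp.Main

set_option autoImplicit false
open Pool Pool.MP_3a1514_mp

namespace Pool.Agent.S15699

/-- For every V>0 and every lattice A·ℤ³ in ℝ³ with covolume V, the sum of ∣q∣^-4 over its nonzero points is at least the same sum for the FCC lattice D3 rescaled to covolume V. -/
theorem result :
    ∀ V : ℝ, 0 < V → ∀ A : Matrix (Fin 3) (Fin 3) ℝ, |A.det| = V →
      (∑' x : {x : Fin 3 → ℤ // x ≠ 0 ∧ Even (x 0 + x 1 + x 2)},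
          ((∑ i : Fin 3, ((V / 2) ^ ((1 : ℝ) / 3) * ((x.1 i : ℤ) : ℝ)) ^ 2) ^ 2)⁻¹)
        ≤ ∑' n : {n : Fin 3 → ℤ // n ≠ 0},
          ((∑ i : Fin 3, ((A.mulVec (fun j => ((n.1 j : ℤ) : ℝ))) i) ^ 2) ^ 2)⁻¹ := by
  exact fun V hV A hA => Pool.Agent.Lib.MP_3a1514_mp.main V hV A hA

end Pool.Agent.S15699
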