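import Pool.Statements.S17961
import Pool.Agent.Lib.MP_a0d2f7_nt.Main

set_option autoImplicit false
open Pool Pool.MP_a0d2f7_nt

namespace Pool.Agent.S17961

/-- There is a real ξ whose Mahler exponent w(ξ) = limsup w_n(ξ)/n differs from its Koksma exponent w*(ξ) = limsup w_n^*(ξ)/n, where w_n and w_n^* measure approximation by integer polynomials and by algebraic numbers of degree ≤ n. -/
theorem result :
    ∃ ξ : ℝ,
      Filter.limsup
        (fun n : ℕ => (((1 : ℝ) / (n : ℝ) : ℝ) : EReal) *
          sSup ((fun w : ℝ => (w : EReal)) ''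
            {w : ℝ | Set.Infinite {P : Polynomial ℤ |
              P.natDegree ≤ n ∧ 0 < |Polynomial.aeval ξ P| ∧
              |Polynomial.aeval ξ P| ≤
                ((P.support.sup (fun i => (P.coeff i).natAbs) : ℕ) : ℝ) ^ (-w)}}))
        Filter.atTop
      ≠
      Filter.limsup
        (fun n : ℕ => (((1 : ℝ) / (n : ℝ) : ℝ) : EReal) *
          sSup ((fun w : ℝ => (w : EReal)) ''
            {w : ℝ | Set.Infinite {α : ℝ | ∃ P : Polynomial ℤ,
              Irreducible P ∧ P.natDegree ≤ n ∧ Polynomial.aeval α P = 0 ∧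
              0 < |ξ - α| ∧
              |ξ - α| ≤
                ((P.support.sup (fun i => (P.coeff i).natAbs) : ℕ) : ℝ) ^ (-w - 1)}}))
        Filter.atTop := by
  obtain ⟨ξ, h1, h2⟩ := Pool.Agent.Lib.MP_a0d2f7_nt.main
  exact ⟨ξ, (Pool.Agent.Lib.MP_a0d2f7_nt.limsup_lt (a := 210001 / 48) (b := 210002 / 48)
    (by norm_num) h1 h2).ne'⟩

end Pool.Agent.S17961
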