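import Pool.Statements.S18531
import Pool.Agent.Lib.MP_ce1fc8_nt.Final

set_option autoImplicit false
open Pool Pool.MP_ce1fc8_nt

namespace Pool.Agent.S18531

/-- With p_n the n-th prime (p_1=2), call n good if p_n^2 > p_{n-i}p_{n+i} for all 1≤i≤n-1; the proportion of good n among 1..N tends to 0 as N grows. -/
theorem result :
    Filter.Tendsto
      (fun N : ℕ =>
        ((((Finset.Icc 1 N).filter (fun n : ℕ =>
            ∀ i ∈ Finset.Icc 1 (n - 1),
              Nat.nth Nat.Prime (n - 1 - i) * Nat.nth Nat.Prime (n - 1 + i)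
                < Nat.nth Nat.Prime (n - 1) ^ 2)).card : ℝ) / (N : ℝ)))
      Filter.atTop (nhds 0) := by
  rw [Metric.tendsto_nhds]
  intro ε hε
  filter_upwards [Pool.Agent.Lib.MP_ce1fc8_nt.good_density (ε / 2) (by positivity),
    Filter.eventually_ge_atTop 1] with N hN hN1
  have hNpos : (0 : ℝ) < N := by exact_mod_cast hN1
  set S := (Finset.Icc 1 N).filter (fun n : ℕ =>
            ∀ i ∈ Finset.Icc 1 (n - 1),
              Nat.nth Nat.Prime (n - 1 - i) * Nat.nth Nat.Prime (n - 1 + i)
                < Nat.nth Nat.Prime (n - 1) ^ 2) with hS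
  have h1 := hN (S.image (fun n => n - 1))
    (by
      intro m hm
      obtain ⟨n, hn, rfl⟩ := Finset.mem_image.mp hm
      have := Finset.mem_Icc.mp (Finset.mem_filter.mp hn).1
      exact Finset.mem_range.mpr (by omega))
    (by
      intro m hm
      obtain ⟨n, hn, rfl⟩ := Finset.mem_image.mp hm
      exact (Finset.mem_filter.mp hn).2)
  rw [Finset.card_image_of_injOn (by
    intro a ha b hb hab
    have h2 := Finset.mem_Icc.mp (Finset.mem_filter.mp ha).1
    have h3 := Finset.mem_Icc.mp (Finset.mem_filter.mp hb).1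
    simp only at hab
    omega)] at h1
  rw [Real.dist_eq, sub_zero, abs_of_nonneg (by positivity), div_lt_iff₀ hNpos]
  nlinarith

end Pool.Agent.S18531
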