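import Pool.Statements.S18701
import Pool.Agent.Lib.LQ.Final

set_option autoImplicit false
open Pool Pool.MP_de94cf_nt

namespace Pool.Agent.S18701

/-- There is ε>0 such that for all large N, the logarithmic average over 1≤n≤N of the Liouville function at n²+1 has absolute value at most 1−ε. -/
theorem result :
    ∃ ε : ℝ, 0 < ε ∧ ∀ᶠ N : ℕ in Filter.atTop,
      |(∑ n ∈ Finset.Icc 1 N, (1 : ℝ) / (n : ℝ))⁻¹ *
          ∑ n ∈ Finset.Icc 1 N,
            (-1 : ℝ) ^ (ArithmeticFunction.cardFactors (n ^ 2 + 1)) / (n : ℝ)| ≤ 1 - ε := by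
  exact Pool.Agent.Lib.LQ.final

end Pool.Agent.S18701
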