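import Pool.Statements.S19289
import Pool.Agent.Lib.MP_449609_pr.Low

set_option autoImplicit false
open Classical
open Pool Pool.MP_449609_pr

namespace Pool.Agent.S19289

/-- For every degree bound Δ there is a polynomial in n such that, after that many steps from any start, the Burnside process on n-vertex graphs of max degree Δ under S_n is within total variation 1/4 of its stationary law. -/
theorem result :
  ∀ Δ : ℕ, ∃ c k : ℕ, ∀ n : ℕ, ∀ X : {G : SimpleGraph (Fin n) // ∀ v, G.degree v ≤ Δ},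
    (1 / 2 : ℝ) * (∑ Y : {G : SimpleGraph (Fin n) // ∀ v, G.degree v ≤ Δ},
      abs ((((Matrix.of fun A B : {G : SimpleGraph (Fin n) // ∀ v, G.degree v ≤ Δ} =>
          (1 / ((Finset.univ.filter fun σ : Equiv.Perm (Fin n) =>
              ∀ u v, A.1.Adj (σ u) (σ v) ↔ A.1.Adj u v).card : ℝ)) *
          ∑ σ ∈ Finset.univ.filter (fun σ : Equiv.Perm (Fin n) =>
              (∀ u v, A.1.Adj (σ u) (σ v) ↔ A.1.Adj u v) ∧
              (∀ u v, B.1.Adj (σ u) (σ v) ↔ B.1.Adj u v)),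
            (1 / ((Finset.univ.filter fun H : {G : SimpleGraph (Fin n) // ∀ v, G.degree v ≤ Δ} =>
              ∀ u v, H.1.Adj (σ u) (σ v) ↔ H.1.Adj u v).card : ℝ))) ^ (c * (n + 1) ^ k)) X Y)
        - ((Finset.univ.filter fun σ : Equiv.Perm (Fin n) =>
              ∀ u v, Y.1.Adj (σ u) (σ v) ↔ Y.1.Adj u v).card : ℝ) /
          (∑ Z : {G : SimpleGraph (Fin n) // ∀ v, G.degree v ≤ Δ},
            ((Finset.univ.filter fun σ : Equiv.Perm (Fin n) =>
              ∀ u v, Z.1.Adj (σ u) (σ v) ↔ Z.1.Adj u v).card : ℝ)))) ≤ 1 / 4 := by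
  intro Δ
  obtain ⟨c, k, h⟩ := Pool.Agent.Lib.MP_449609_pr.poinc_main Δ
  refine ⟨2 * (c + 1), k + 2, fun n X => ?_⟩
  have h1 : (1 : ℝ) ≤ (n + 1) ^ k := one_le_pow₀ (by simp)
  have hc : (0 : ℝ) ≤ c := by positivity
  have := Pool.Agent.Lib.MP_449609_pr.tv_of_poinc (Λ := (c + 1) * (n + 1) ^ k) (by nlinarith)
    ((h n).mono (by nlinarith)) (2 * (c + 1) * (n + 1) ^ (k + 2))
    (by push_cast; apply le_of_eq; ring) X
  unfold Pool.Agent.Lib.MP_449609_pr.Kmat Pool.Agent.Lib.MP_449609_pr.wA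
    Pool.Agent.Lib.MP_449609_pr.wB Pool.Agent.Lib.MP_449609_pr.IsAut at this
  convert this

end Pool.Agent.S19289
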