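import Pool.Statements.S19519
import Pool.Agent.Lib.MP_9debf8_pr.Bits

set_option autoImplicit false
open scoped MeasureTheory
open Pool Pool.MP_9debf8_pr

namespace Pool.Agent.S19519

open MeasureTheory ProbabilityTheory Pool.Agent.HideZero in
lemma bits_law {p : ℝ} (h0 : 0 < p) (h1 : p < 1) {Ω : Type} [MeasurableSpace Ω] (μ : Measure Ω)
    [IsProbabilityMeasure μ] (X : ℤ × ℤ → ℕ → Ω → ℝ) (hm : ∀ v i, Measurable (X v i))
    (hind : iIndepFun (fun vi : (ℤ × ℤ) × ℕ => X vi.1 vi.2) μ)
    (hlaw : ∀ v i, μ {ω | X v i ω = 1} = ENNReal.ofReal p) :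
    MeasurePreserving (fun ω v i => decide (X v i ω = 1)) μ
      (Measure.infinitePi fun _ : ℤ × ℤ => Measure.infinitePi fun _ : ℕ => bern p) := by
  have md : Measurable fun x : ℝ => decide (x = 1) :=
    measurable_to_bool (by simp [Set.preimage])
  have mb : ∀ vi : (ℤ × ℤ) × ℕ, Measurable fun ω => decide (X vi.1 vi.2 ω = 1) :=
    fun vi => md.comp (hm _ _)
  have h2 := (hind.comp (fun _ (x : ℝ) => decide (x = 1)) fun _ => md).map_fun_eq_infinitePi_map mb
  have h3 : ∀ vi : (ℤ × ℤ) × ℕ, μ.map (fun ω => decide (X vi.1 vi.2 ω = 1)) = bern p := by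
    intro vi
    have ht : μ.map (fun ω => decide (X vi.1 vi.2 ω = 1)) {true} = bern p {true} := by
      rw [Measure.map_apply (mb vi) (measurableSet_singleton _), bern_single h0.le h1.le]
      simpa [Set.preimage, bw] using hlaw vi.1 vi.2
    have := Measure.isProbabilityMeasure_map (μ := μ) (mb vi).aemeasurable
    refine Measure.ext_of_singleton fun b => ?_
    cases b
    · have e : ({false} : Set Bool) = {true}ᶜ := by ext b; cases b <;> simp
      rw [e, prob_compl_eq_one_sub .of_discrete, prob_compl_eq_one_sub .of_discrete, ht]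
    · exact ht
  refine ⟨measurable_pi_lambda _ fun v => measurable_pi_lambda _ fun i => mb (v, i), ?_⟩
  rw [← Measure.infinitePi_map_curry (fun (_ : ℤ × ℤ) (_ : ℕ) => bern p)]
  simp only [h3] at h2
  rw [← h2, Measure.map_map (MeasurableEquiv.measurable _) (measurable_pi_lambda _ mb)]
  rfl

/-- With geometric LPP weights encoded as the number of leading ones in i.i.d. Bernoulli(p) bits, the variance of E[T_n ∣ all bits except the first at each site] is o(Var T_n), T_n being the passage time from (0,0) to (n,n). -/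
theorem result :
  ∀ (p : ℝ), 0 < p → p < 1 →
  ∀ (Ω : Type) [MeasurableSpace Ω] (μ : MeasureTheory.Measure Ω)
    [MeasureTheory.IsProbabilityMeasure μ]
    (X : ℤ × ℤ → ℕ → Ω → ℝ),
    (∀ v i, Measurable (X v i)) →
    ProbabilityTheory.iIndepFun (fun vi : (ℤ × ℤ) × ℕ => X vi.1 vi.2) μ →
    (∀ v i, μ {ω | X v i ω = 1} = ENNReal.ofReal p ∧
            μ {ω | X v i ω = 0} = ENNReal.ofReal (1 - p)) →
    ∀ T : ℕ → Ω → ℝ,
    (∀ n ω, T n ω =
      ⨆ s : {s : Fin (2 * n) → Bool // (Finset.univ.filter (fun j => s j = true)).card = n},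
        ∑ k : Fin (2 * n + 1),
          ∑' i : ℕ, ∏ j ∈ Finset.range (i + 1),
            X (((Finset.univ.filter
                  (fun j : Fin (2 * n) => (j : ℕ) < (k : ℕ) ∧ s.1 j = true)).card : ℤ),
               (k : ℤ) - ((Finset.univ.filter
                  (fun j : Fin (2 * n) => (j : ℕ) < (k : ℕ) ∧ s.1 j = true)).card : ℤ)) j ω) →
    Asymptotics.IsLittleO Filter.atTop
      (fun n => ProbabilityTheory.variance
        (μ[T n | ⨆ (v : ℤ × ℤ) (i : ℕ) (_ : 1 ≤ i),
            MeasurableSpace.comap (X v i) (inferInstance : MeasurableSpace ℝ)]) μ)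
      (fun n => ProbabilityTheory.variance (T n) μ) := by
  intro p h0 h1 Ω mΩ μ _ X hm hind hlaw T hT
  classical
  have hr0 : 0 < √p := Real.sqrt_pos.2 h0
  have hr1 : √p < 1 := by rw [Real.sqrt_lt' one_pos]; simpa using h1
  have hb := bits_law h0 h1 μ X hm hind fun v i => (hlaw v i).1
  have md : Measurable fun x : ℝ => decide (x = 1) :=
    measurable_to_bool (by simp [Set.preimage])
  -- the good event
  have hgood : ∀ᵐ ω ∂μ, ∀ v, (∀ j, X v j ω = 1 ∨ X v j ω = 0) ∧
      ¬ ∀ j, decide (X v (j + 1) ω = 1) = true := by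
    refine MeasureTheory.ae_all_iff.2 fun v => Filter.Eventually.and
      (MeasureTheory.ae_all_iff.2 fun j => ?_) ?_
    · have m1 : MeasurableSet {ω | X v j ω = 1} := hm v j (measurableSet_singleton 1)
      have m0 : MeasurableSet {ω | X v j ω = 0} := hm v j (measurableSet_singleton 0)
      refine (MeasureTheory.prob_compl_eq_zero_iff (μ := μ) (m1.union m0)).2 ?_
      have hd : Disjoint {ω | X v j ω = 1} {ω | X v j ω = 0} :=
        Set.disjoint_left.2 fun ω (e1 : X v j ω = 1) (e0 : X v j ω = 0) => by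
          rw [e1] at e0; norm_num at e0
      rw [MeasureTheory.measure_union hd m0, (hlaw v j).1, (hlaw v j).2,
        ← ENNReal.ofReal_add h0.le (by linarith)]
      simp
    · have := ((measurePreserving_eval_infinitePi _ v).comp hb).measure_preimage
        (s := {β | ∀ i, β (i + 1) = true}) (MeasurableSet.nullMeasurableSet (by measurability))
      rw [HideZero.all_true_null h0.le h1] at this
      rw [MeasureTheory.ae_iff]
      simpa [Set.preimage] using this
  refine Asymptotics.isLittleO_iff.2 fun ε hε => ?_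
  filter_upwards [HideZero.scales hr0 hr1 hε] with n hn
  obtain ⟨m, hn⟩ := hn
  rw [Real.sq_sqrt h0.le] at hn
  let Z : Ω → HideZero.PF := fun ω u =>
    HideZero.pairf fun i => decide (X ((u.1 : ℤ), (u.2 : ℤ) - m) i ω = 1)
  have hZ : MeasureTheory.MeasurePreserving Z μ (HideZero.QQ p) := by
    have e1 : MeasureTheory.MeasurePreserving
        (fun (β : ℤ × ℤ → ℕ → Bool) (u : ℕ × ℕ) => β ((u.1 : ℤ), (u.2 : ℤ) - m)) _ _ :=
      ⟨measurable_pi_lambda _ fun _ => measurable_pi_apply _,
        MeasureTheory.Measure.map_infinitePi_infinitePi_of_inj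
          (P := fun _ => MeasureTheory.Measure.infinitePi fun _ : ℕ => HideZero.bern p)
          (fun u v h => by
            simp only [Prod.mk.injEq] at h
            exact Prod.ext (by omega) (by omega))⟩
    have e2 : MeasureTheory.MeasurePreserving
        (fun (β : ℕ × ℕ → ℕ → Bool) (u : ℕ × ℕ) => HideZero.pairf (β u))
        (MeasureTheory.Measure.infinitePi fun _ =>
          MeasureTheory.Measure.infinitePi fun _ : ℕ => HideZero.bern p) (HideZero.QQ p) := by
      refine ⟨measurable_pi_lambda _ fun u =>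
        HideZero.measurable_pairf.comp (measurable_pi_apply u), ?_⟩
      rw [MeasureTheory.Measure.infinitePi_map_pi _ (f := fun _ => HideZero.pairf)
        fun _ => HideZero.measurable_pairf]
      simp only [HideZero.pairf_law h0.le h1]
      rfl
    exact e2.comp (e1.comp hb)
  have hTe : T n =ᵐ[μ] fun ω =>
      (HideZero.Lp (HideZero.sh (0, m) (HideZero.wf (Z ω))) n n : ℝ) := by
    filter_upwards [hgood] with ω hω
    rw [hT]
    refine HideZero.sup_paths n _ (fun v => ∑' i, ∏ j ∈ Finset.range (i + 1), X v j ω)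
      fun i j => ?_
    rw [HideZero.tsum_bits (hω _).1 (hω _).2]
    simp [HideZero.sh, HideZero.wf, Z]
  have hle : ∀ vi : (ℤ × ℤ) × ℕ,
      MeasurableSpace.comap (X vi.1 vi.2) (inferInstance : MeasurableSpace ℝ) ≤ mΩ :=
    fun vi => (hm _ _).comap_le
  have hI := ProbabilityTheory.indep_iSup_of_disjoint hle hind.iIndep
    (S := {vi | vi.2 = 0}) (T := {vi | 1 ≤ vi.2}) (Set.disjoint_left.2 fun vi (e1 : vi.2 = 0)
      (e2 : 1 ≤ vi.2) => by omega)
  have key := hn Ω (⨆ (v : ℤ × ℤ) (i : ℕ) (_ : 1 ≤ i),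
    MeasurableSpace.comap (X v i) (inferInstance : MeasurableSpace ℝ)) _ μ Z hZ
    (iSup_le fun v => iSup₂_le fun i _ => hle (v, i))
    (iSup₂_le fun vi _ => hle vi) (ProbabilityTheory.indep_of_indep_of_le_right hI
      (iSup_le fun v => iSup₂_le fun i hi => le_iSup₂_of_le (v, i) hi le_rfl))
    (fun u => md.comp ((comap_measurable _).mono
      (le_iSup₂_of_le (((u.1 : ℤ), (u.2 : ℤ) - m), 0) rfl le_rfl) le_rfl))
    (fun u => HideZero.measurable_lead.comp (@measurable_pi_lambda _ _ _ (_) _ _ fun i =>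
      md.comp ((comap_measurable _).mono (le_iSup_of_le ((u.1 : ℤ), (u.2 : ℤ) - m)
        (le_iSup₂_of_le (i + 1) (by omega) le_rfl)) le_rfl)))
  have hV := ((HideZero.mp_sh p (0, m)).comp ((HideZero.mp_wf h0.le h1).comp hZ)).variance_fun_comp
    (HideZero.measurable_cast (HideZero.measurable_Lp n n)).aemeasurable
  rw [Real.norm_of_nonneg (ProbabilityTheory.variance_nonneg _ _),
    Real.norm_of_nonneg (ProbabilityTheory.variance_nonneg _ _),
    ProbabilityTheory.variance_congr (MeasureTheory.condExp_congr_ae hTe),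
    ProbabilityTheory.variance_congr hTe]
  rw [← hV] at key
  exact key

end Pool.Agent.S19519
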